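import Pool.Agent.H461.Q5.Stm3

set_option linter.unusedSectionVars false

open Polynomial
open scoped Classical

noncomputable section

namespace Q5

open D5

namespace XDV

variable {F : Type} [Field F] [Fintype F] [CharP F 5]

/-- the set of the monic divisors -/
def Dv (W : F[X]) : Finset F[X] :=
  (Finset.range (W.natDegree + 1)).biUnion (fun k => (MON F k).filter (fun a => a ∣ W))

theorem mem_Dv (hM : ∀ n (f : F[X]), f ∈ MON F n ↔ f.Monic ∧ f.natDegree = n) {W a : F[X]}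
    (hW : W ≠ 0) : a ∈ Dv W ↔ a.Monic ∧ a ∣ W := by
  unfold Dv
  rw [Finset.mem_biUnion]
  constructor
  · rintro ⟨k, _, ha⟩
    obtain ⟨h1, h2⟩ := Finset.mem_filter.mp ha
    exact ⟨((hM k a).1 h1).1, h2⟩
  · rintro ⟨h1, h2⟩
    refine ⟨a.natDegree, Finset.mem_range.mpr (Nat.lt_succ_of_le (natDegree_le_of_dvd h2 hW)), ?_⟩
    exact Finset.mem_filter.mpr ⟨(hM _ a).2 ⟨h1, rfl⟩, h2⟩

/-- the divisors of `P ^ k * W` -/
theorem div_pow {P W : F[X]} (hP : Irreducible P) (hPm : P.Monic) (k : ℕ) :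
    ∀ a : F[X], a.Monic → a ∣ P ^ k * W → ∃ i < k + 1, ∃ a' : F[X], a'.Monic ∧ a' ∣ W ∧
      P ^ i * a' = a := by
  induction k with
  | zero =>
    intro a ha hd
    rw [pow_zero, one_mul] at hd
    exact ⟨0, Nat.zero_lt_one, a, ha, hd, by rw [pow_zero, one_mul]⟩
  | succ k ih =>
    intro a ha hd
    by_cases hPa : P ∣ a
    · obtain ⟨b, rfl⟩ := hPa
      have hb : b.Monic := hPm.of_mul_monic_left ha
      rw [pow_succ', mul_assoc] at hd
      obtain ⟨i, hi, a', ha', had, hia⟩ := ih b hb ((mul_dvd_mul_iff_left hPm.ne_zero).1 hd)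
      exact ⟨i + 1, by omega, a', ha', had, by rw [pow_succ', mul_assoc, hia]⟩
    · have h1 : IsCoprime a P := ((Irreducible.coprime_iff_not_dvd hP).2 hPa).symm
      rw [pow_succ', mul_assoc] at hd
      obtain ⟨i, hi, a', ha', had, hia⟩ := ih a ha (h1.dvd_of_dvd_mul_left hd)
      exact ⟨i, by omega, a', ha', had, hia⟩

/-- the sum over the divisors -/
def Sg (x : ℝ) (W : F[X]) : ℝ := ∑ a ∈ Dv W, x ^ a.natDegree

theorem geom_le {y : ℝ} (hy0 : 0 ≤ y) (hy : y ≤ 1 / 2) (n : ℕ) :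
    ∑ i ∈ Finset.range n, y ^ i ≤ 2 := by
  have h1 : ∀ n : ℕ, ∑ i ∈ Finset.range n, (1 / 2 : ℝ) ^ i = 2 - 2 * (1 / 2) ^ n := by
    intro n
    induction n with
    | zero => simp
    | succ n ih =>
      rw [Finset.sum_range_succ, ih, pow_succ]
      ring
  calc ∑ i ∈ Finset.range n, y ^ i ≤ ∑ i ∈ Finset.range n, (1 / 2 : ℝ) ^ i :=
        Finset.sum_le_sum fun i _ => pow_le_pow_left₀ hy0 hy i
    _ = 2 - 2 * (1 / 2) ^ n := h1 n
    _ ≤ 2 := by
        have : (0 : ℝ) ≤ (1 / 2) ^ n := by positivity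
        linarith

theorem Sg_nonneg {x : ℝ} (hx : 0 ≤ x) (W : F[X]) : 0 ≤ Sg x W :=
  Finset.sum_nonneg fun _ _ => pow_nonneg hx _

theorem Sg_mul_le (hM : ∀ n (f : F[X]), f ∈ MON F n ↔ f.Monic ∧ f.natDegree = n) {x : ℝ}
    (hx0 : 0 ≤ x) (hx : x ≤ 1 / 2) {P W : F[X]} (hP : Irreducible P) (hPm : P.Monic)
    (hW : W ≠ 0) (k : ℕ) : Sg x (P ^ k * W) ≤ 2 * Sg x W := by
  have hPW : P ^ k * W ≠ 0 := mul_ne_zero (pow_ne_zero _ hPm.ne_zero) hW
  have hch : ∀ a ∈ Dv (P ^ k * W), ∃ z : ℕ × F[X], z ∈ (Finset.range (k + 1)) ×ˢ (Dv W) ∧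
      P ^ z.1 * z.2 = a := by
    intro a ha
    obtain ⟨h1, h2⟩ := (mem_Dv hM hPW).1 ha
    obtain ⟨i, hi, a', ha', had, hia⟩ := div_pow hP hPm k a h1 h2
    exact ⟨(i, a'), Finset.mem_product.mpr ⟨Finset.mem_range.mpr hi, (mem_Dv hM hW).2 ⟨ha', had⟩⟩,
      hia⟩
  choose! φ hφ1 hφ2 using hch
  have h1 : Sg x (P ^ k * W) = ∑ z ∈ (Dv (P ^ k * W)).image φ, x ^ (P ^ z.1 * z.2).natDegree := by
    unfold Sg
    rw [Finset.sum_image]
    · exact Finset.sum_congr rfl fun a ha => by rw [hφ2 a ha]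
    · intro a ha b hb hab
      rw [← hφ2 a ha, ← hφ2 b hb, hab]
  have h2 : ∑ z ∈ (Dv (P ^ k * W)).image φ, x ^ (P ^ z.1 * z.2).natDegree ≤
      ∑ z ∈ (Finset.range (k + 1)) ×ˢ (Dv W), x ^ (P ^ z.1 * z.2).natDegree := by
    refine Finset.sum_le_sum_of_subset_of_nonneg ?_ fun _ _ _ => pow_nonneg hx0 _
    intro z hz
    obtain ⟨a, ha, rfl⟩ := Finset.mem_image.1 hz
    exact hφ1 a ha
  have h3 : ∑ z ∈ (Finset.range (k + 1)) ×ˢ (Dv W), x ^ (P ^ z.1 * z.2).natDegree =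
      (∑ i ∈ Finset.range (k + 1), (x ^ P.natDegree) ^ i) * Sg x W := by
    unfold Sg
    rw [Finset.sum_product, Finset.sum_mul]
    refine Finset.sum_congr rfl fun i _ => ?_
    rw [Finset.mul_sum]
    refine Finset.sum_congr rfl fun a ha => ?_
    have ha0 : a ≠ 0 := ((mem_Dv hM hW).1 ha).1.ne_zero
    dsimp only
    rw [natDegree_mul (pow_ne_zero _ hPm.ne_zero) ha0, natDegree_pow, pow_add, ← pow_mul,
      mul_comm i]
  have h4 : x ^ P.natDegree ≤ 1 / 2 :=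
    (pow_le_of_le_one hx0 (by linarith) hP.natDegree_pos.ne').trans hx
  have h5 := geom_le (pow_nonneg hx0 _) h4 (k + 1)
  rw [h1]
  refine h2.trans ?_
  rw [h3]
  exact mul_le_mul_of_nonneg_right h5 (Sg_nonneg hx0 W)

theorem Sg_unit (hM : ∀ n (f : F[X]), f ∈ MON F n ↔ f.Monic ∧ f.natDegree = n) {x : ℝ}
    (hx0 : 0 ≤ x) {W : F[X]} (hW : IsUnit W) : Sg x W ≤ 1 := by
  have h1 : Dv W ⊆ {1} := by
    intro a ha
    have h1 := (mem_Dv hM hW.ne_zero).1 ha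
    rw [Finset.mem_singleton]
    exact h1.1.eq_one_of_isUnit (isUnit_of_dvd_unit h1.2 hW)
  unfold Sg
  refine (Finset.sum_le_sum_of_subset_of_nonneg h1 fun _ _ _ => pow_nonneg hx0 _).trans ?_
  simp

theorem main (hM : ∀ n (f : F[X]), f ∈ MON F n ↔ f.Monic ∧ f.natDegree = n) {x : ℝ}
    (hx0 : 0 ≤ x) (hx : x ≤ 1 / 2) (n : ℕ) : ∀ b : F[X], b ≠ 0 → b.natDegree = n →
      Sg x (b ^ 5) ≤ 2 ^ b.natDegree := by
  induction n using Nat.strong_induction_on with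
  | _ n ih =>
    intro b hb hn
    by_cases hu : IsUnit b
    · exact (Sg_unit hM hx0 (hu.pow 5)).trans (one_le_pow₀ (by norm_num))
    · obtain ⟨P, hPm, hPi, W, rfl⟩ := exists_monic_irreducible_factor b hu
      have hW : W ≠ 0 := right_ne_zero_of_mul hb
      have hPd : 0 < P.natDegree := hPi.natDegree_pos
      have hdeg : (P * W).natDegree = P.natDegree + W.natDegree := natDegree_mul hPm.ne_zero hW
      have h1 := ih _ (by omega) W hW rfl
      have h2 := Sg_mul_le hM hx0 hx hPi hPm (pow_ne_zero 5 hW) 5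
      rw [mul_pow]
      calc Sg x (P ^ 5 * W ^ 5) ≤ 2 * Sg x (W ^ 5) := h2
        _ ≤ 2 * 2 ^ W.natDegree := by linarith
        _ ≤ 2 ^ P.natDegree * 2 ^ W.natDegree := by
            refine mul_le_mul_of_nonneg_right ?_ (by positivity)
            exact le_self_pow₀ (by norm_num) hPd.ne'
        _ = 2 ^ (P * W).natDegree := by rw [hdeg, pow_add]

end XDV

theorem p_DV (F : Type) [Field F] [Fintype F] [CharP F 5] (hB0 : D5.S_B0 F) : S_DV F := by
  intro b hb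
  have hM : ∀ n (f : F[X]), f ∈ MON F n ↔ f.Monic ∧ f.natDegree = n := hB0.2.1
  have hq4 : (4 : ℝ) ≤ qq F := by
    obtain ⟨n, -, hn⟩ := FiniteField.card F 5
    have h1 : 5 ^ 1 ≤ 5 ^ (n : ℕ) := Nat.pow_le_pow_right (by norm_num) n.2
    have h2 : 4 ≤ Fintype.card F := by rw [hn]; omega
    unfold qq
    exact_mod_cast h2
  have hq0 : 0 < qq F := by linarith
  obtain ⟨x, hx⟩ : ∃ x : ℝ, x = qq F ^ (-(1 / 2) : ℝ) := ⟨_, rfl⟩
  have hx0 : 0 ≤ x := by rw [hx]; positivity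
  have hx1 : x ≤ 1 / 2 := by
    rw [hx, Real.rpow_neg hq0.le, ← Real.sqrt_eq_rpow, one_div]
    have h2 : (2 : ℝ) ≤ Real.sqrt (qq F) := by
      apply Real.le_sqrt_of_sq_le
      linarith
    exact inv_anti₀ (by norm_num) h2
  have hxi : ∀ i : ℕ, qq F ^ (-(i : ℝ) / 2) = x ^ i := by
    intro i
    rw [hx, ← Real.rpow_natCast, ← Real.rpow_mul hq0.le]
    congr 1
    ring
  have h1 := XDV.main hM hx0 hx1 b.natDegree b hb rfl
  have h2 : ∑ i ∈ Finset.range (5 * b.natDegree + 1),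
      (((MON F i).filter (fun δ => δ ∣ b ^ 5)).card : ℝ) * qq F ^ (-(i : ℝ) / 2) =
      XDV.Sg x (b ^ 5) := by
    unfold XDV.Sg XDV.Dv
    rw [Finset.sum_biUnion]
    · rw [natDegree_pow]
      refine Finset.sum_congr rfl fun i _ => ?_
      rw [hxi, ← nsmul_eq_mul, ← Finset.sum_const]
      refine Finset.sum_congr rfl fun a ha => ?_
      rw [((hM i a).1 (Finset.mem_filter.mp ha).1).2]
    · intro i _ j _ hij
      change Disjoint ((MON F i).filter (fun a => a ∣ b ^ 5)) ((MON F j).filter (fun a => a ∣ b ^ 5))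
      rw [Finset.disjoint_left]
      intro a ha ha'
      exact hij (((hM i a).1 (Finset.mem_filter.mp ha).1).2.symm.trans
        ((hM j a).1 (Finset.mem_filter.mp ha').1).2)
  rw [h2]
  exact h1

end Q5
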