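import Pool.Agent.H461.Q5.Stm3

/-!
# Task F2: `#sol (P² f) ≤ 5 #sol f` (helper764, for helper461; adapted from the characteristic 3 version)
-/

open Polynomial
open scoped Classical

noncomputable section

namespace Q5

open D5

namespace XF2

variable {F : Type} [Field F] [CharP F 5]

theorem five_eq : (5 : F[X]) = 0 := by
  have h : ((5 : ℕ) : F[X]) = 0 := CharP.cast_eq_zero F[X] 5
  exact_mod_cast h

theorem sub_fifth (v w : F[X]) : (v - w) ^ 5 = v ^ 5 - w ^ 5 := by
  linear_combination (-(v ^ 4 * w) + 2 * (v ^ 3 * w ^ 2) - 2 * (v ^ 2 * w ^ 3) + v * w ^ 4) *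
    (five_eq : (5 : F[X]) = 0)

theorem der_fifth_mul (P g : F[X]) : derivative (P ^ 5 * g) = P ^ 5 * derivative g := by
  rw [derivative_mul, derivative_pow]
  have h : (C ((5 : ℕ) : F) : F[X]) = 0 := by
    rw [CharP.cast_eq_zero, C_0]
  rw [h]
  ring

theorem d4_fifth_mul (P g : F[X]) : d4 (P ^ 5 * g) = P ^ 5 * d4 g := by
  unfold d4
  rw [der_fifth_mul, der_fifth_mul, der_fifth_mul, der_fifth_mul]

theorem isSol_sub {f v w : F[X]} (hv : IsSol f v) (hw : IsSol f w) : IsSol f (v - w) := by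
  unfold IsSol at *
  rw [sub_fifth]
  unfold d4 at *
  rw [mul_sub, derivative_sub, derivative_sub, derivative_sub, derivative_sub, hv, hw]
  ring

theorem isSol_of_mul {P f u : F[X]} (hP : P ≠ 0) (h : IsSol (P ^ 2 * f) (P * u)) : IsSol f u := by
  unfold IsSol at *
  have e : (P ^ 2 * f) ^ 2 * (P * u) = P ^ 5 * (f ^ 2 * u) := by ring
  rw [e, d4_fifth_mul] at h
  have h5 : P ^ 5 ≠ 0 := pow_ne_zero _ hP
  apply mul_left_cancel₀ h5
  rw [h]
  ring

theorem der4 (P H : F[X]) : derivative (P ^ 4 * H) =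
    P ^ 3 * (4 * derivative P * H + P * derivative H) := by
  have e : P ^ 4 * H = P * (P * (P * (P * H))) := by ring
  rw [e]
  simp only [derivative_mul]
  ring

theorem der3 (P H : F[X]) : derivative (P ^ 3 * H) =
    P ^ 2 * (3 * derivative P * H + P * derivative H) := by
  have e : P ^ 3 * H = P * (P * (P * H)) := by ring
  rw [e]
  simp only [derivative_mul]
  ring

theorem der2 (P H : F[X]) : derivative (P ^ 2 * H) =
    P * (2 * derivative P * H + P * derivative H) := by
  have e : P ^ 2 * H = P * (P * H) := by ring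
  rw [e]
  simp only [derivative_mul]
  ring

theorem dvd_of_sol {P f v : F[X]} (h : IsSol (P ^ 2 * f) v) :
    P ∣ v ^ 5 - (derivative P ^ 4 * f ^ 2) * v := by
  unfold IsSol d4 at h
  obtain ⟨G, hG⟩ : ∃ G, G = f ^ 2 * v := ⟨_, rfl⟩
  have e : (P ^ 2 * f) ^ 2 * v = P ^ 4 * G := by rw [hG]; ring
  rw [e, der4] at h
  obtain ⟨G1, hG1⟩ : ∃ G1, G1 = 4 * derivative P * G + P * derivative G := ⟨_, rfl⟩
  rw [← hG1, der3] at h
  obtain ⟨G2, hG2⟩ : ∃ G2, G2 = 3 * derivative P * G1 + P * derivative G1 := ⟨_, rfl⟩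
  rw [← hG2, der2] at h
  obtain ⟨G3, hG3⟩ : ∃ G3, G3 = 2 * derivative P * G2 + P * derivative G2 := ⟨_, rfl⟩
  rw [← hG3, derivative_mul] at h
  obtain ⟨D0, hD0⟩ : ∃ D, D = derivative G := ⟨_, rfl⟩
  obtain ⟨D1, hD1⟩ : ∃ D, D = derivative G1 := ⟨_, rfl⟩
  obtain ⟨D2, hD2⟩ : ∃ D, D = derivative G2 := ⟨_, rfl⟩
  obtain ⟨D3, hD3⟩ : ∃ D, D = derivative G3 := ⟨_, rfl⟩
  rw [← hD3] at h
  rw [← hD2] at hG3
  rw [← hD1] at hG2
  rw [← hD0] at hG1
  refine ⟨-(6 * derivative P ^ 3 * D0 + 2 * derivative P ^ 2 * D1 + derivative P * D2 + D3), ?_⟩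
  have h5 := (five_eq : (5 : F[X]) = 0)
  have e2 : v ^ 5 = -(derivative P * G3 + P * D3) := by rw [h]; ring
  rw [e2, hG3, hG2, hG1, hG]
  linear_combination (-(5 * derivative P ^ 4 * f ^ 2 * v)) * h5

end XF2

open XF2 in
theorem p_F2 (F : Type) [Field F] [Fintype F] [CharP F 5] (hB1 : D5.S_B1 F) : S_F2 F := by
  intro P f hP hf
  have hsol := hB1.2.2.2.2
  have : Fact (Irreducible P) := ⟨hP⟩
  set c : AdjoinRoot P := AdjoinRoot.mk P (derivative P ^ 4 * f ^ 2) with hc
  set R : (AdjoinRoot P)[X] := X ^ 5 - C c * X with hR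
  have hRd : R.natDegree = 5 := by
    rw [hR]
    compute_degree!
  have hR0 : R ≠ 0 := by
    intro h
    rw [h, natDegree_zero] at hRd
    exact absurd hRd (by norm_num)
  have hTc : R.roots.toFinset.card ≤ 5 := by
    calc R.roots.toFinset.card ≤ Multiset.card R.roots := Multiset.toFinset_card_le _
      _ ≤ R.natDegree := card_roots' R
      _ = 5 := hRd
  have hmaps : ∀ v ∈ sol (P ^ 2 * f), AdjoinRoot.mk P v ∈ R.roots.toFinset := by
    intro v hv
    rw [Multiset.mem_toFinset, mem_roots hR0, IsRoot.def, hR]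
    rw [eval_sub, eval_pow, eval_X, eval_mul, eval_C, eval_X, hc, ← map_pow, ← map_mul, ← map_sub,
      AdjoinRoot.mk_eq_zero]
    exact dvd_of_sol ((hsol _ _).1 hv)
  have hfib : ∀ b ∈ R.roots.toFinset,
      ((sol (P ^ 2 * f)).filter (fun v => AdjoinRoot.mk P v = b)).card ≤ (sol f).card := by
    intro b _
    rcases ((sol (P ^ 2 * f)).filter (fun v => AdjoinRoot.mk P v = b)).eq_empty_or_nonempty with
      he | ⟨v₀, hv₀⟩
    · rw [he, Finset.card_empty]
      exact Nat.zero_le _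
    · rw [Finset.mem_filter] at hv₀
      apply Finset.card_le_card_of_injOn (fun v => (v - v₀) / P)
      · intro v hv
        rw [Finset.mem_coe, Finset.mem_filter] at hv
        have hd : P ∣ v - v₀ := by
          rw [← AdjoinRoot.mk_eq_zero, map_sub, hv.2, hv₀.2, sub_self]
        have he : P * ((v - v₀) / P) = v - v₀ := EuclideanDomain.mul_div_cancel' hP.ne_zero hd
        rw [Finset.mem_coe, hsol]
        apply isSol_of_mul hP.ne_zero
        rw [he]
        exact isSol_sub ((hsol _ _).1 hv.1) ((hsol _ _).1 hv₀.1)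
      · intro v hv w hw hvw
        rw [Finset.mem_coe, Finset.mem_filter] at hv hw
        have hd : P ∣ v - v₀ := by
          rw [← AdjoinRoot.mk_eq_zero, map_sub, hv.2, hv₀.2, sub_self]
        have hd' : P ∣ w - v₀ := by
          rw [← AdjoinRoot.mk_eq_zero, map_sub, hw.2, hv₀.2, sub_self]
        have he : P * ((v - v₀) / P) = v - v₀ := EuclideanDomain.mul_div_cancel' hP.ne_zero hd
        have he' : P * ((w - v₀) / P) = w - v₀ := EuclideanDomain.mul_div_cancel' hP.ne_zero hd'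
        have h1 : v - v₀ = w - v₀ := by
          rw [← he, ← he']
          exact congrArg (fun z => P * z) hvw
        exact sub_left_injective h1
  calc (sol (P ^ 2 * f)).card ≤ (sol f).card * R.roots.toFinset.card :=
        Finset.card_le_mul_card_image_of_maps_to hmaps _ hfib
    _ ≤ (sol f).card * 5 := Nat.mul_le_mul_left _ hTc
    _ = 5 * (sol f).card := mul_comm _ _

end Q5
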