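import Pool.Agent.H461.Q5.Stm3

open Polynomial
open scoped Classical

noncomputable section

namespace Q5

open D5

namespace XS10

variable {F : Type} [Field F] [Fintype F] [CharP F 5]

/-- double counting of the pairs `(l, p)`, `p` valid for `l` -/
lemma count (hP0b : D5.S_P0b F) (hS9 : S_S9 F) (g d : ℕ) (hd : 1 ≤ d) (hd2 : 2 * d ≤ g)
    (S : Finset (Fin g → F)) (hS : ∀ l ∈ S, l ≠ 0 ∧ rr g l = d) (Q : Finset (F[X] × F[X]))
    (hQ : ∀ l ∈ S, ∀ p ∈ VP g l, p ∈ Q) :
    (S.card : ℝ) * qq F ^ (g + 4) ≤ 2 * qq F ^ (2 * d) * (qq F * (Q.card : ℝ)) := by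
  have hq : 0 < qq F := by
    unfold qq
    exact_mod_cast Fintype.card_pos
  have h1 : ∑ l ∈ S, (VP g l).card ≤ Q.card * Fintype.card F := by
    have h2 : ∀ l ∈ S, (VP g l).card = ∑ p ∈ Q, if p ∈ VP g l then 1 else 0 := by
      intro l hl
      rw [← Finset.card_filter]
      have : Q.filter (fun p => p ∈ VP g l) = VP g l := by
        ext p
        rw [Finset.mem_filter]
        exact ⟨fun h => h.2, fun h => ⟨hQ l hl p h, h⟩⟩
      rw [this]
    rw [Finset.sum_congr rfl h2, Finset.sum_comm, ← smul_eq_mul]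
    refine Finset.sum_le_card_nsmul _ _ _ fun p _ => ?_
    rw [← Finset.card_filter]
    refine le_trans (Finset.card_le_card fun l hl => ?_) (hP0b.1 g d (fr p.1) (fr p.2) hd (by omega))
    rw [Finset.mem_filter] at hl
    refine Finset.mem_filter.2 ⟨Finset.mem_univ _, ?_⟩
    have h3 := (Finset.mem_filter.1 hl.2).2
    rw [(hS l hl.1).2] at h3
    exact h3
  have h2 : (S.card : ℝ) * qq F ^ (g + 4) ≤ ∑ l ∈ S, 2 * qq F ^ (2 * d) * ((VP g l).card : ℝ) := by
    rw [← nsmul_eq_mul]
    refine Finset.card_nsmul_le_sum _ _ _ fun l hl => ?_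
    have h3 := hS9 g l (hS l hl).1
    rw [(hS l hl).2, Nat.min_eq_left hd2] at h3
    exact h3
  refine h2.trans ?_
  rw [← Finset.mul_sum]
  refine mul_le_mul_of_nonneg_left ?_ (by positivity)
  have h3 : ((∑ l ∈ S, (VP g l).card : ℕ) : ℝ) ≤ ((Q.card * Fintype.card F : ℕ) : ℝ) := by
    exact_mod_cast h1
  push_cast at h3
  have e : qq F * (Q.card : ℝ) = (Q.card : ℝ) * (Fintype.card F : ℝ) := by
    unfold qq
    ring
  rw [e]
  exact h3

lemma natDegree_mem (hB0 : D5.S_B0 F) {n : ℕ} {a : F[X]} (h : a.natDegree ≤ n) : a ∈ POL F (n + 1) := by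
  rw [hB0.1, degree_lt_iff_coeff_zero]
  intro i hi
  exact coeff_eq_zero_of_natDegree_lt (by omega)

/-- the members of a valid pair -/
lemma vp_cop (hFR : D5.S_FR F) {g : ℕ} {l : Fin g → F} {p : F[X] × F[X]} (hp : p ∈ VP g l) :
    Cop (rr g l) (g + 1 - rr g l) p.1 p.2 :=
  (hFR.2.2.2.2.2.2.2 _ _ _ _).1 (Finset.mem_filter.1 hp).2.1

end XS10

open XS10 in
theorem p_S10 (F : Type) [Field F] [Fintype F] [CharP F 5] (hB0 : D5.S_B0 F) (hFR : D5.S_FR F)
    (hP0b : D5.S_P0b F) (hS8 : S_S8 F) (hS9 : S_S9 F) : S_S10 F := by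
  have hq : 0 < qq F := by
    unfold qq
    exact_mod_cast Fintype.card_pos
  refine ⟨fun g d hd => ?_, fun g d h hd hd2 hh => ?_⟩
  · rcases le_or_gt g (2 * d) with h1 | h1
    · rw [Nat.min_eq_right h1]
      have h2 : ((Finset.univ : Finset (Fin g → F)).filter (fun l => l ≠ 0 ∧ rr g l = d)).card ≤
          Fintype.card F ^ g := by
        refine (Finset.card_le_univ _).trans ?_
        rw [Fintype.card_fun, Fintype.card_fin]
      have h3 : (((Finset.univ : Finset (Fin g → F)).filter (fun l => l ≠ 0 ∧ rr g l = d)).card : ℝ) ≤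
          qq F ^ g := by
        unfold qq
        exact_mod_cast h2
      have h4 : 0 < qq F ^ g := pow_pos hq _
      linarith
    · rw [Nat.min_eq_left h1.le]
      have h2 := count hP0b hS9 g d hd h1.le
        ((Finset.univ : Finset (Fin g → F)).filter (fun l => l ≠ 0 ∧ rr g l = d))
        (fun l hl => (Finset.mem_filter.1 hl).2) (POL F (d + 1) ×ˢ POL F (g + 1 - d + 1))
        (fun l hl p hp => by
          have h3 := vp_cop hFR hp
          rw [(Finset.mem_filter.1 hl).2.2] at h3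
          exact Finset.mem_product.2 ⟨natDegree_mem hB0 h3.2.1, natDegree_mem hB0 h3.2.2.1⟩)
      rw [Finset.card_product, hB0.2.2.2.1, hB0.2.2.2.1, ← pow_add] at h2
      have e1 : d + 1 + (g + 1 - d + 1) = g + 3 := by omega
      rw [e1] at h2
      have e2 : qq F * ((Fintype.card F ^ (g + 3) : ℕ) : ℝ) = qq F ^ (g + 4) := by
        push_cast
        unfold qq
        ring
      rw [e2] at h2
      exact le_of_mul_le_mul_right h2 (pow_pos hq _)
  · have h2 := count hP0b hS9 g d hd hd2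
      ((Finset.univ : Finset (Fin g → F)).filter (fun l => l ≠ 0 ∧ rr g l = d ∧
        (bb g l).1.natDegree + h = d))
      (fun l hl => ⟨(Finset.mem_filter.1 hl).2.1, (Finset.mem_filter.1 hl).2.2.1⟩)
      (POL F (d - h + 1) ×ˢ POL F (g + 1 - d + 1))
      (fun l hl p hp => by
        have h3 := vp_cop hFR hp
        obtain ⟨_, hl0, hlr, hlh⟩ := Finset.mem_filter.1 hl
        rw [hlr] at h3
        obtain ⟨c, hc, hp1⟩ := hS8.2 g l hl0 (by omega) p hp
        have h4 : p.1.natDegree = (bb g l).1.natDegree := by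
          rw [hp1, natDegree_C_mul hc]
        exact Finset.mem_product.2 ⟨natDegree_mem hB0 (by omega), natDegree_mem hB0 h3.2.2.1⟩)
    rw [Finset.card_product, hB0.2.2.2.1, hB0.2.2.2.1, ← pow_add] at h2
    have e1 : d - h + 1 + (g + 1 - d + 1) = g + 3 - h := by omega
    rw [e1] at h2
    set N : ℝ := (((Finset.univ : Finset (Fin g → F)).filter (fun l => l ≠ 0 ∧ rr g l = d ∧
      (bb g l).1.natDegree + h = d)).card : ℝ) with hN
    refine le_of_mul_le_mul_right ?_ (pow_pos hq (g + 4))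
    refine h2.trans (le_of_eq ?_)
    have e2 : qq F * ((Fintype.card F ^ (g + 3 - h) : ℕ) : ℝ) = qq F ^ (g + 4 - h) := by
      have e3 : g + 4 - h = (g + 3 - h) + 1 := by omega
      rw [e3]
      push_cast
      unfold qq
      ring
    rw [e2, mul_assoc, mul_assoc, ← pow_add, ← pow_add]
    have e4 : 2 * d + (g + 4 - h) = 2 * d - h + (g + 4) := by omega
    rw [e4]

end Q5
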