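import Pool.Agent.H461.Q5.Stm3

/-!
# S8: uniqueness of `b₁` (helper596 for helper461)
-/

set_option linter.unusedSectionVars false

open Polynomial
open scoped Classical

noncomputable section

namespace Q5

open D5

namespace XS8

variable {F : Type} [Field F] [Fintype F] [CharP F 5]

/-- the chosen generators -/
lemma bb_val (hFR : D5.S_FR F) (hP0 : D5.S_P0 F) (g : ℕ) (l : Fin g → F) (hl : l ≠ 0) :
    Val g l (rr g l) (fr (bb g l).1) (fr (bb g l).2) := by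
  have h : ∃ p : F[X] × F[X], Val g l (rr g l) (fr p.1) (fr p.2) := by
    obtain ⟨B₁, B₂, h⟩ := hP0 g l hl
    obtain ⟨b₁, rfl⟩ := hFR.2.2.2.2.1 B₁
    obtain ⟨b₂, rfl⟩ := hFR.2.2.2.2.1 B₂
    exact ⟨(b₁, b₂), h⟩
  have h1 : bb g l = h.choose := by
    unfold bb
    rw [dif_pos h]
  rw [h1]
  exact h.choose_spec

lemma cop_ne_zero {d₁ d₂ : ℕ} (h1 : 1 ≤ d₁) (h2 : 1 ≤ d₂) {b₁ b₂ : F[X]} (h : Cop d₁ d₂ b₁ b₂) :
    b₁ ≠ 0 := by
  rintro rfl
  obtain ⟨hc, _, _, h3⟩ := h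
  have hu : IsUnit b₂ := isCoprime_zero_left.1 hc
  rcases h3 with h3 | h3
  · rw [natDegree_zero] at h3
    omega
  · rw [natDegree_eq_zero_of_isUnit hu] at h3
    omega

lemma mem_POL (hB0 : D5.S_B0 F) {n : ℕ} {p : F[X]} :
    p ∈ POL F n ↔ ∀ i, n ≤ i → p.coeff i = 0 := by
  rw [hB0.1, degree_lt_iff_coeff_zero]

lemma natDegree_mem (hB0 : D5.S_B0 F) {n : ℕ} {a : F[X]} (h : a.natDegree < n) :
    a ∈ POL F n := by
  rw [mem_POL hB0]
  intro i hi
  exact coeff_eq_zero_of_natDegree_lt (by omega)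

/-- the rank -/
lemma rr_bd (hE4 : D5.S_E4 F) (g : ℕ) (l : Fin g → F) (hl : l ≠ 0) :
    1 ≤ rr g l ∧ 2 * rr g l ≤ g + 1 := by
  refine ⟨?_, hE4.2.2.1 g l⟩
  by_contra h
  exact hl (hE4.2.2.2 g l (by omega))

end XS8

open XS8 in
theorem p_S8 (F : Type) [Field F] [Fintype F] [CharP F 5] (hB0 : D5.S_B0 F) (hFR : D5.S_FR F)
    (hE4 : D5.S_E4 F) (hP0 : D5.S_P0 F) (hP1 : D5.S_P1 F) : S_S8 F := by
  have hcop : ∀ (g : ℕ) (l : Fin g → F) (b₁ b₂ : F[X]), Val g l (rr g l) (fr b₁) (fr b₂) →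
      Cop (rr g l) (g + 1 - rr g l) b₁ b₂ := fun g l b₁ b₂ h =>
    (hFR.2.2.2.2.2.2.2 _ _ _ _).1 h.1
  refine ⟨?_, ?_⟩
  · intro g l hl
    obtain ⟨h1, h2⟩ := rr_bd hE4 g l hl
    have hv := bb_val hFR hP0 g l hl
    have hc := hcop g l _ _ hv
    refine ⟨?_, cop_ne_zero h1 (by omega) hc, hc⟩
    unfold VP
    refine Finset.mem_filter.2 ⟨Finset.mem_product.2 ⟨natDegree_mem hB0 ?_,
      natDegree_mem hB0 ?_⟩, hv⟩
    · have := hc.2.1
      omega
    · have := hc.2.2.1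
      omega
  · intro g l hl h2d p hp
    obtain ⟨h1, h2⟩ := rr_bd hE4 g l hl
    have hv := bb_val hFR hP0 g l hl
    unfold VP at hp
    have hpv : Val g l (rr g l) (fr p.1) (fr p.2) := (Finset.mem_filter.1 hp).2
    have hpc := hcop g l _ _ hpv
    have hp0 : p.1 ≠ 0 := cop_ne_zero h1 (by omega) hpc
    have hHK : fr p.1 ∈ HK g l (rr g l + 1) (g - rr g l) := by
      unfold HK
      refine Finset.mem_filter.2 ⟨natDegree_mem hB0 ?_, fun i hi => hpv.2.1 i (by omega)⟩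
      have := hpv.1.2.1
      omega
    obtain ⟨α, β, he, hα, hβ⟩ := hP1 g l _ _ h1 hv (rr g l + 1) (g - rr g l) (by omega) _ hHK
    have hβ0 : β = 0 := by
      have h3 : rr g l + 1 - (g + 1 - rr g l) = 0 := by omega
      rw [h3, mem_POL hB0] at hβ
      exact Polynomial.ext fun i => by rw [hβ i (Nat.zero_le _), coeff_zero]
    have hα1 : α = C (α.coeff 0) := by
      have h3 : rr g l + 1 - rr g l = 1 := by omega
      rw [h3, mem_POL hB0] at hα
      refine Polynomial.ext fun i => ?_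
      rw [coeff_C]
      split_ifs with h
      · rw [h]
      · exact hα i (by omega)
    rw [hβ0, mul_zero, add_zero] at he
    obtain ⟨b, hb⟩ := hFR.2.2.2.2.1 α
    have hbd : b.natDegree = 0 := by
      rw [← hFR.2.2.2.2.2.2.1 b, hb, hα1, natDegree_C]
    have hbC : b = C (b.coeff 0) := eq_C_of_natDegree_eq_zero hbd
    have he2 : p.1 = (bb g l).1 * b := by
      apply hFR.2.2.2.2.2.1
      rw [hFR.2.2.1, hb]
      exact he
    refine ⟨b.coeff 0, ?_, ?_⟩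
    · intro h0
      apply hp0
      rw [he2, hbC, h0, C_0, mul_zero]
    · rw [mul_comm, ← hbC]
      exact he2

end Q5
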