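import Pool.Agent.H461.Q5.Stm3

open Polynomial
open scoped Classical

noncomputable section

namespace Q5

open D5

namespace XS9

variable {F : Type} [Field F] [Fintype F]

omit [Fintype F] in
theorem mu_C (g : ℕ) (l : Fin g → F) (a : F) (i : ℕ) (B : F[X]) :
    mu g l (X ^ i * (C a * B)) = a * mu g l (X ^ i * B) := by
  unfold mu
  rw [Finset.mul_sum]
  refine Finset.sum_congr rfl fun j _ => ?_
  have h : X ^ i * (C a * B) = C a * (X ^ i * B) := by ring
  rw [h, coeff_C_mul]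
  ring

omit [Fintype F] in
theorem scale (g : ℕ) (l : Fin g → F) (d : ℕ) (B₁ B₂ : F[X]) (h : Val g l d B₁ B₂) (a b : F)
    (ha : a ≠ 0) (hb : b ≠ 0) : Val g l d (C a * B₁) (C b * B₂) := by
  obtain ⟨⟨h1, h2, h3, h4⟩, h5, h6⟩ := h
  refine ⟨⟨?_, ?_, ?_, ?_⟩, ?_, ?_⟩
  · have ua : IsUnit (C a : F[X]) := isUnit_C.2 (isUnit_iff_ne_zero.2 ha)
    have ub : IsUnit (C b : F[X]) := isUnit_C.2 (isUnit_iff_ne_zero.2 hb)
    rw [isCoprime_mul_unit_left_left ua, isCoprime_mul_unit_left_right ub]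
    exact h1
  · rw [natDegree_C_mul ha]; exact h2
  · rw [natDegree_C_mul hb]; exact h3
  · rw [natDegree_C_mul ha, natDegree_C_mul hb]; exact h4
  · intro i hi
    rw [mu_C, h5 i hi, mul_zero]
  · intro i hi
    rw [mu_C, h6 i hi, mul_zero]

omit [Fintype F] in
theorem swap (g : ℕ) (l : Fin g → F) (d : ℕ) (B₁ B₂ : F[X]) (hd : 2 * d = g + 1)
    (h : Val g l d B₁ B₂) : Val g l d B₂ B₁ := by
  obtain ⟨⟨h1, h2, h3, h4⟩, h5, h6⟩ := h
  have e : g + 1 - d = d := by omega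
  rw [e] at h3 h4
  refine ⟨⟨h1.symm, h3, ?_, ?_⟩, ?_, ?_⟩
  · rw [e]; exact h2
  · rw [e]; exact h4.symm
  · intro i hi
    exact h6 i (by omega)
  · intro i hi
    exact h5 i (by omega)

variable (F) in
omit [Fintype F] in
theorem frC [CharP F 5] (hFR : D5.S_FR F) (a : F) : fr (C a) = C (a ^ 5) := by
  ext i
  rw [hFR.1, coeff_C, coeff_C]
  split_ifs
  · rfl
  · simp

omit [Fintype F] in
theorem opA [CharP F 5] (hFR : D5.S_FR F) (g : ℕ) (l : Fin g → F) (d : ℕ) (b₁ b₂ : F[X])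
    (h : Val g l d (fr b₁) (fr b₂)) (a b : F) (ha : a ≠ 0) (hb : b ≠ 0) :
    Val g l d (fr (C a * b₁)) (fr (C b * b₂)) := by
  rw [hFR.2.2.1, hFR.2.2.1, frC F hFR, frC F hFR]
  exact scale g l d _ _ h _ _ (pow_ne_zero 5 ha) (pow_ne_zero 5 hb)

theorem fr_mem [CharP F 5] (hB0 : D5.S_B0 F) (hFR : D5.S_FR F) (n : ℕ) (c : F[X])
    (hc : c ∈ POL F n) : fr c ∈ POL F n := by
  rw [hB0.1] at hc ⊢
  by_cases h0 : fr c = 0
  · rw [h0, degree_zero]
    exact WithBot.bot_lt_coe n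
  · have h1 : c ≠ 0 := by
      rintro rfl
      apply h0
      ext i
      rw [hFR.1, coeff_zero]
      simp
    rw [degree_eq_natDegree h0, hFR.2.2.2.2.2.2.1, ← degree_eq_natDegree h1]
    exact hc

theorem opB [CharP F 5] (hB0 : D5.S_B0 F) (hFR : D5.S_FR F) (hP0b : D5.S_P0b F) (g : ℕ)
    (l : Fin g → F) (d : ℕ) (b₁ b₂ c : F[X]) (h1 : 1 ≤ d) (h2 : 2 * d ≤ g + 1)
    (h : Val g l d (fr b₁) (fr b₂)) (hc : c ∈ POL F (g + 2 - 2 * d)) :
    Val g l d (fr b₁) (fr (b₂ + b₁ * c)) := by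
  rw [hFR.2.1, hFR.2.2.1]
  exact hP0b.2 g d l _ _ _ h1 h2 h (fr_mem hB0 hFR _ c hc)

theorem mem_VP [CharP F 5] (hB0 : D5.S_B0 F) (hFR : D5.S_FR F) (g : ℕ) (l : Fin g → F)
    (hd : rr g l ≤ g + 1) (p : F[X] × F[X]) (h : Val g l (rr g l) (fr p.1) (fr p.2)) :
    p ∈ VP g l := by
  have aux : ∀ b : F[X], b.natDegree ≤ g + 1 → b ∈ POL F (g + 2) := by
    intro b hb
    rw [hB0.1]
    refine lt_of_le_of_lt degree_le_natDegree ?_
    exact_mod_cast Nat.lt_of_le_of_lt hb (by omega)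
  unfold VP
  rw [Finset.mem_filter, Finset.mem_product]
  have h1 := h.1.2.1
  have h2 := h.1.2.2.1
  rw [hFR.2.2.2.2.2.2.1] at h1 h2
  exact ⟨⟨aux _ (by omega), aux _ (by omega)⟩, h⟩

theorem indep [CharP F 5] (hB0 : D5.S_B0 F) (g d : ℕ) (b₁ b₂ : F[X]) (h0 : b₁ ≠ 0) (h1 : 1 ≤ d)
    (h2 : 2 * d ≤ g + 1) (hC : Cop d (g + 1 - d) b₁ b₂) (x : F) (c : F[X])
    (hc : c ∈ POL F (g + 2 - 2 * d)) (h : C x * b₂ = b₁ * c) : x = 0 ∧ c = 0 := by
  have hx : x = 0 := by
    by_contra hx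
    have hu : IsUnit (C x : F[X]) := isUnit_C.2 (isUnit_iff_ne_zero.2 hx)
    have h3 : b₁ ∣ b₂ := (hu.dvd_mul_left).1 ⟨c, h⟩
    have h4 : IsUnit b₁ := hC.1.isUnit_of_dvd' (dvd_refl _) h3
    have h5 : b₁.natDegree = 0 := natDegree_eq_zero_of_isUnit h4
    have h6 : b₂.natDegree = g + 1 - d := by
      rcases hC.2.2.2 with h7 | h7
      · omega
      · exact h7
    have h7 : b₂.natDegree ≤ b₁.natDegree + c.natDegree := by
      rw [← natDegree_C_mul (p := b₂) hx, h]
      exact natDegree_mul_le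
    have h8 : c.natDegree ≤ g + 1 - 2 * d := by
      by_cases hc0 : c = 0
      · rw [hc0]; simp
      · rw [hB0.1, degree_eq_natDegree hc0] at hc
        have h9 : c.natDegree < g + 2 - 2 * d := by exact_mod_cast hc
        omega
    omega
  refine ⟨hx, ?_⟩
  rw [hx, C_0, zero_mul] at h
  exact (mul_eq_zero.1 h.symm).resolve_left h0

theorem C_mem [CharP F 5] (hB0 : D5.S_B0 F) (n : ℕ) (hn : 1 ≤ n) (c : F) : C c ∈ POL F n := by
  rw [hB0.1]
  exact degree_C_le.trans_lt (by exact_mod_cast hn)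

theorem sub_mem [CharP F 5] (hB0 : D5.S_B0 F) (n : ℕ) (c c' : F[X]) (h : c ∈ POL F n)
    (h' : c' ∈ POL F n) : c' - c ∈ POL F n := by
  rw [hB0.1] at h h' ⊢
  exact lt_of_le_of_lt (degree_sub_le _ _) (max_lt h' h)

end XS9

open XS9

theorem p_S9 (F : Type) [Field F] [Fintype F] [CharP F 5] (hB0 : D5.S_B0 F) (hFR : D5.S_FR F)
    (hE4 : D5.S_E4 F) (hP0b : D5.S_P0b F) (hS8 : S_S8 F) : S_S9 F := by
  intro g l hl
  set d := rr g l with hd
  have h1 : 1 ≤ d := by
    rcases Nat.eq_zero_or_pos d with h | h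
    · exact absurd (hE4.2.2.2 g l h) hl
    · exact h
  have h2 : 2 * d ≤ g + 1 := hE4.2.2.1 g l
  obtain ⟨hVP, hb0, hCop⟩ := hS8.1 g l hl
  set b₁ := (bb g l).1 with hb₁
  set b₂ := (bb g l).2 with hb₂
  have hVal : Val g l d (fr b₁) (fr b₂) := by
    unfold VP at hVP
    rw [Finset.mem_filter] at hVP
    exact hVP.2
  have hq5 : 5 ≤ Fintype.card F := by
    obtain ⟨n, -, hn⟩ := FiniteField.card F 5
    rw [hn]
    exact Nat.le_self_pow n.ne_zero 5
  have hunits : Fintype.card Fˣ = Fintype.card F - 1 := Fintype.card_units F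
  have hreal : (5 : ℝ) ≤ qq F := by
    unfold qq
    exact_mod_cast hq5
  have hq1 : ((Fintype.card F - 1 : ℕ) : ℝ) = qq F - 1 := by
    unfold qq
    rw [Nat.cast_sub (by omega)]
    simp
  have hquad : qq F ^ 2 ≤ 2 * ((qq F - 1) * (qq F - 1)) := by nlinarith
  by_cases hcase : 2 * d ≤ g
  · -- first case
    have hcount : (Fintype.card F - 1) * ((Fintype.card F - 1) * Fintype.card F ^ (g + 2 - 2 * d)) ≤
        (VP g l).card := by
      have hc : ((Finset.univ : Finset Fˣ) ×ˢ ((Finset.univ : Finset Fˣ) ×ˢ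
          POL F (g + 2 - 2 * d))).card =
          (Fintype.card F - 1) * ((Fintype.card F - 1) * Fintype.card F ^ (g + 2 - 2 * d)) := by
        rw [Finset.card_product, Finset.card_product, Finset.card_univ, hunits, hB0.2.2.2.1]
      rw [← hc]
      refine Finset.card_le_card_of_injOn
        (fun t => (C (t.1 : F) * b₁, C (t.2.1 : F) * b₂ + b₁ * t.2.2)) ?_ ?_
      · rintro ⟨x, y, c⟩ ht
        simp only [Finset.coe_product, Set.mem_prod, Finset.mem_coe, Finset.mem_univ, true_and] at ht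
        refine mem_VP hB0 hFR g l (by omega) _ ?_
        have e1 := opA hFR g l d b₁ b₂ hVal 1 (y : F) one_ne_zero y.ne_zero
        rw [C_1, one_mul] at e1
        have e2 := opB hB0 hFR hP0b g l d b₁ (C (y : F) * b₂) c h1 h2 e1 ht
        have e3 := opA hFR g l d b₁ _ e2 (x : F) 1 x.ne_zero one_ne_zero
        rw [C_1, one_mul] at e3
        exact e3
      · rintro ⟨x, y, c⟩ ht ⟨x', y', c'⟩ ht' hEq
        simp only [Finset.coe_product, Set.mem_prod, Finset.mem_coe, Finset.mem_univ, true_and] at ht ht'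
        simp only [Prod.mk.injEq] at hEq
        obtain ⟨e1, e2⟩ := hEq
        have hx : (x : F) = x' := C_injective (mul_right_cancel₀ hb0 e1)
        have e3 : C ((y : F) - y') * b₂ = b₁ * (c' - c) := by
          rw [C_sub]
          linear_combination e2
        obtain ⟨e4, e5⟩ := indep hB0 g d b₁ b₂ hb0 h1 h2 hCop _ _ (sub_mem hB0 _ c c' ht ht') e3
        rw [Prod.mk.injEq, Prod.mk.injEq]
        exact ⟨Units.ext hx, Units.ext (sub_eq_zero.1 e4), (sub_eq_zero.1 e5).symm⟩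
    have hcR : (qq F - 1) * ((qq F - 1) * qq F ^ (g + 2 - 2 * d)) ≤ ((VP g l).card : ℝ) := by
      have h := (Nat.cast_le (α := ℝ)).2 hcount
      rw [Nat.cast_mul, Nat.cast_mul, hq1, Nat.cast_pow] at h
      exact h
    have hmin : min (2 * d) g = 2 * d := min_eq_left hcase
    rw [hmin]
    have hsplit : qq F ^ (g + 4) = qq F ^ (2 * d) * qq F ^ (g + 2 - 2 * d) * qq F ^ 2 := by
      rw [← pow_add, ← pow_add]
      congr 1
      omega
    have hA : 0 ≤ qq F ^ (2 * d) * qq F ^ (g + 2 - 2 * d) := by positivity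
    calc qq F ^ (g + 4) = qq F ^ (2 * d) * qq F ^ (g + 2 - 2 * d) * qq F ^ 2 := hsplit
      _ ≤ qq F ^ (2 * d) * qq F ^ (g + 2 - 2 * d) * (2 * ((qq F - 1) * (qq F - 1))) :=
          mul_le_mul_of_nonneg_left hquad hA
      _ = 2 * qq F ^ (2 * d) * ((qq F - 1) * ((qq F - 1) * qq F ^ (g + 2 - 2 * d))) := by ring
      _ ≤ 2 * qq F ^ (2 * d) * ((VP g l).card : ℝ) :=
          mul_le_mul_of_nonneg_left hcR (by positivity)
  · -- second case
    have hd2 : 2 * d = g + 1 := by omega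
    have hPOL : g + 2 - 2 * d = 1 := by omega
    have hcount : (Fintype.card F - 1) * ((Fintype.card F - 1) * (Fintype.card F * Fintype.card F)) ≤
        (VP g l).card := by
      have hc : (Finset.univ : Finset (Fˣ × Fˣ × F × F)).card =
          (Fintype.card F - 1) * ((Fintype.card F - 1) * (Fintype.card F * Fintype.card F)) := by
        rw [Finset.card_univ, Fintype.card_prod, Fintype.card_prod, Fintype.card_prod, hunits]
      rw [← hc]
      refine Finset.card_le_card_of_injOn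
        (fun t => (C (t.1 : F) * b₁ + b₂ * C t.2.2.1,
          C (t.2.1 : F) * b₂ + (C (t.1 : F) * b₁ + b₂ * C t.2.2.1) * C t.2.2.2)) ?_ ?_
      · rintro ⟨x, y, m, s⟩ -
        refine mem_VP hB0 hFR g l (by omega) _ ?_
        have e1 := swap g l d _ _ hd2 hVal
        have e2 := opA hFR g l d b₂ b₁ e1 1 (x : F) one_ne_zero x.ne_zero
        rw [C_1, one_mul] at e2
        have e3 := opB hB0 hFR hP0b g l d b₂ (C (x : F) * b₁) (C m) h1 h2 e2
          (C_mem hB0 _ (by omega) m)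
        have e4 := swap g l d _ _ hd2 e3
        have e5 := opA hFR g l d _ b₂ e4 1 (y : F) one_ne_zero y.ne_zero
        rw [C_1, one_mul] at e5
        exact opB hB0 hFR hP0b g l d _ (C (y : F) * b₂) (C s) h1 h2 e5 (C_mem hB0 _ (by omega) s)
      · rintro ⟨x, y, m, s⟩ - ⟨x', y', m', s'⟩ - hEq
        simp only [Prod.mk.injEq] at hEq
        obtain ⟨e1, e2⟩ := hEq
        have e3 : C (m - m') * b₂ = b₁ * C ((x' : F) - x) := by
          rw [C_sub, C_sub]
          linear_combination e1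
        obtain ⟨e4, e5⟩ := indep hB0 g d b₁ b₂ hb0 h1 h2 hCop _ _ (C_mem hB0 _ (by omega) _) e3
        have hm : m = m' := sub_eq_zero.1 e4
        have hx : (x' : F) = x := sub_eq_zero.1 (C_eq_zero.1 e5)
        rw [← e1] at e2
        have e6 : C ((y : F) - y' + m * (s - s')) * b₂ = b₁ * C (-((x : F) * (s - s'))) := by
          rw [C_add, C_sub, C_neg, C_mul, C_mul, C_sub]
          linear_combination e2
        obtain ⟨e7, e8⟩ := indep hB0 g d b₁ b₂ hb0 h1 h2 hCop _ _ (C_mem hB0 _ (by omega) _) e6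
        have hs : s - s' = 0 := by
          have e9 := neg_eq_zero.1 (C_eq_zero.1 e8)
          exact (mul_eq_zero.1 e9).resolve_left x.ne_zero
        rw [hs, mul_zero, add_zero] at e7
        rw [Prod.mk.injEq, Prod.mk.injEq, Prod.mk.injEq]
        exact ⟨Units.ext hx.symm, Units.ext (sub_eq_zero.1 e7), hm, sub_eq_zero.1 hs⟩
    have hcR : (qq F - 1) * ((qq F - 1) * (qq F * qq F)) ≤ ((VP g l).card : ℝ) := by
      have h := (Nat.cast_le (α := ℝ)).2 hcount
      rw [Nat.cast_mul, Nat.cast_mul, hq1, Nat.cast_mul] at h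
      exact h
    have hmin : min (2 * d) g = g := min_eq_right (by omega)
    rw [hmin]
    have hA : 0 ≤ qq F ^ g * (qq F * qq F) := by positivity
    calc qq F ^ (g + 4) = qq F ^ g * (qq F * qq F) * qq F ^ 2 := by ring
      _ ≤ qq F ^ g * (qq F * qq F) * (2 * ((qq F - 1) * (qq F - 1))) :=
          mul_le_mul_of_nonneg_left hquad hA
      _ = 2 * qq F ^ g * ((qq F - 1) * ((qq F - 1) * (qq F * qq F))) := by ring
      _ ≤ 2 * qq F ^ g * ((VP g l).card : ℝ) :=
          mul_le_mul_of_nonneg_left hcR (by positivity)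

end Q5
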