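import Pool.Agent.H506.D5.Stm2

/-!
# Project D5, third part (helper461): the average of the 5-torsion is `2 + O(q^(-7/20))`

`F` is a finite field of characteristic 5, `q = #F`.  Parts 1 and 2 (helper506): `cl5 f = #sol f` (A9) and the average of `#sol f` is
bounded.  GOAL: `|∑_{f ∈ SQF (2g+1)} cl5 f - 2 #SQF| ≤ (3000 q^(-7/20) + ε) #SQF` for large `g`.  The point is to lose no power of `q`
in the count of the pairs `(l, v)` with a degenerate form.  Notation of Defs, Stm, Stm2: `d = rr g l`, `(b₁, b₂) = bb g l`.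
Most tasks are EDITS of finished files `Pool/Agent/H506/D5/*.lean` (named in the docstrings; store `helper506_D5_X.lean`).
-/

open Polynomial
open scoped Classical

noncomputable section

namespace Q5

open D5

/-- The linear form `z ↦ Lam (v z X^(2g+1))` vanishes on the radical. -/
def EX {F : Type} [Field F] [Fintype F] (g : ℕ) (l : Fin g → F) (v : F[X]) : Prop :=
  ∀ z ∈ POL F (2 * g + 1), (∀ y ∈ POL F (2 * g + 1), Lam g l (v * z * y) = 0) → Lam g l (v * z * X ^ (2 * g + 1)) = 0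

/-- `KK` if `EX`, otherwise `0`. -/
def K1 {F : Type} [Field F] [Fintype F] (g : ℕ) (l : Fin g → F) (v : F[X]) : ℕ := if EX g l v then KK g l v else 0

/-- The radical has `q ^ k ≥ q` elements and is generated by `z` of degree exactly `2g+1-k`, with one more vanishing than in `GP`. -/
def GE {F : Type} [Field F] [Fintype F] (g : ℕ) (l : Fin g → F) (v : F[X]) (k : ℕ) (z : F[X]) : Prop :=
  KK g l v = Fintype.card F ^ k ∧ 1 ≤ k ∧ z ≠ 0 ∧ z.natDegree + k = 2 * g + 1 ∧ ∀ i, i < 2 * g + 1 + k → Lam g l (v * z * X ^ i) = 0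

/-- The radical comes from `b₁`. -/
def LOW {F : Type} [Field F] [Fintype F] (g : ℕ) (l : Fin g → F) (v : F[X]) (k : ℕ) : Prop :=
  2 * rr g l ≤ g ∧ ∃ z α : F[X], GE g l v k z ∧ v * z = (bb g l).1 ^ 5 * α ∧ α ∈ POL F (3 * g + 4 - k - 5 * rr g l)

/-- The radical does not come from `b₁`. -/
def BIG {F : Type} [Field F] [Fintype F] (g : ℕ) (l : Fin g → F) (v : F[X]) (k : ℕ) : Prop :=
  ∃ z : F[X], GE g l v k z ∧ (2 * rr g l ≤ g → ¬ ∃ α ∈ POL F (3 * g + 4 - k - 5 * rr g l), v * z = (bb g l).1 ^ 5 * α)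

/-- The coefficients from the top: of `X^(A-1-t)`. -/
def co {F : Type} [Field F] (P : F[X]) (A t : ℕ) : F := if t < A then P.coeff (A - 1 - t) else 0

/-- The three top coefficients of `α ∈ POL A` and `β ∈ POL A'` satisfy the same linear relation. -/
def TP {F : Type} [Field F] (A A' : ℕ) (α β : F[X]) : Prop :=
  ∃ c₁ c₂ : F, (c₁ ≠ 0 ∨ c₂ ≠ 0) ∧ ∀ t, t < 3 → c₁ * co α A t + c₂ * co β A' t = 0

/-- The pairs `(α, β)` which can occur. -/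
def AB (F : Type) [Field F] [Fintype F] (A A' : ℕ) : Finset (F[X] × F[X]) :=
  (POL F A ×ˢ POL F A').filter (fun p => (p.1 ≠ 0 ∨ p.2 ≠ 0) ∧ (p.2 ≠ 0 ∨ A = A') ∧ TP A A' p.1 p.2)

/-- The valid pairs `(b₁, b₂)` for `l`. -/
def VP {F : Type} [Field F] [Fintype F] (g : ℕ) (l : Fin g → F) : Finset (F[X] × F[X]) :=
  (POL F (g + 2) ×ˢ POL F (g + 2)).filter (fun p => Val g l (rr g l) (fr p.1) (fr p.2))

variable (F : Type) [Field F] [Fintype F] [CharP F 5]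

/-- **S1** (uses B0; edit of `D5.E1`) `‖∑_{f monic of degree 2g+1} ψ (Lam l (f² v))‖² ≤ q ^ (2g+1) K1 g l v` for an additive character `ψ ≠ 1`.
Proof: as E1: with `n = 2g+1` the square is `q ^ n ∑_{z ∈ Rad} ψ(Lam l (v z²) + 2 Lam l (v z X^n))`, `Rad = {z ∈ POL n : Lam (v z u) = 0 ∀ u ∈ POL n}`.  For `z ∈ Rad`,
`Lam (v z²) = 0`.  So the sum is `∑_{z ∈ Rad} ψ(2 Lam (v z X^n))`, a character sum over an `F`-subspace: it is `#Rad = KK` if `Lam (v z X^n) = 0` on `Rad` and `0` otherwise. -/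
def S_S1 : Prop :=
  ∀ (ψ : AddChar F ℂ), ψ ≠ 1 → ∀ (g : ℕ) (l : Fin g → F) (v : F[X]),
    ‖∑ f ∈ MON F (2 * g + 1), ψ (Lam g l (f ^ 2 * v))‖ ^ 2 ≤ qq F ^ (2 * g + 1) * (K1 g l v : ℝ)

/-- **S2** (uses B0, B1, S1; edit of `D5.E2`) for `deg v < g`: `|q^g #{f : IsSol f v} - q^(2g+1)| ≤ ∑_{l ≠ 0} √(q^(2g+1) K1 g l v)`.
Proof: as E2, but the condition for `j < g` is now also SUFFICIENT: for `j ≥ g` the coefficient of `X^(5j+4)` in `f² v` (degree `≤ 5g+1 < 5j+4`) and `v_j` are `0`.  So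
`q^g #{f} = ∑_l ∑_f ψ(∑_j l_j ((f² v)_{5j+4} - v_j⁵))` is an equality; the term `l = 0` is `q^(2g+1)`. -/
def S_S2 : Prop :=
  ∀ (g : ℕ) (v : F[X]), v ∈ POL F g →
    |qq F ^ g * (((MON F (2 * g + 1)).filter (fun f => IsSol f v)).card : ℝ) - qq F ^ (2 * g + 1)| ≤
      ∑ l ∈ (Finset.univ : Finset (Fin g → F)).filter (fun l => l ≠ 0), Real.sqrt (qq F ^ (2 * g + 1) * (K1 g l v : ℝ))

/-- **S3** (uses B0, G) for `v ≠ 0` of degree `< g` with `EX g l v`: `KK = 1` or there are `k, z` with `GE g l v k z`.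
Proof: G gives `k, z` with `GP`; let `k ≥ 1`.  For `i' < k`, `z X^i'` has degree `≤ 2g` and is in the radical (`Lam (v z X^(i'+i)) = 0`, `i' + i ≤ k - 1 + 2g < 2g + k`).  By `EX` with `i' = k-1`:
`Lam (v z X^(2g+k)) = 0`.  So the vanishing holds for `i < 2g+1+k`.  If `deg z ≤ 2g - k` then also `z X^k` is in the radical, and `z, zX, …, zX^k` are linearly independent: the radical would have
at least `q^(k+1)` elements.  So `deg z = 2g+1-k` (`z ∈ POL (2g+2-k)`). -/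
def S_S3 : Prop :=
  ∀ (g : ℕ) (l : Fin g → F) (v : F[X]), v ∈ POL F g → v ≠ 0 → EX g l v → KK g l v = 1 ∨ ∃ (k : ℕ) (z : F[X]), GE g l v k z

/-- **S4** (uses B0, FR, P1, E4; edit of `D5.P2`) as P2 with one more vanishing: `w = b₁⁵ α + b₂⁵ β` with `deg α < 3g+4-k-5d`, `deg β < 3g+4-k-5(g+1-d)`.
Proof: as P2 with `K_s = (2g+k+1+s)/5`, `J_s = g+1-K_s` (`K_s ≤ g+1`): `w_s` has degree `< (3g-k-s+5)/5 ≤ J_s` (as `(3g-k-s+5) + (2g+k+1+s) = 5g+6`, `J_s = ⌊(3g+8-k-s)/5⌋`), and for `i < K_s`, `5i+4-s ≤ 2g+k`.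
Degree of `X^s α_s(X⁵)`, `α_s ∈ POL (J_s - d)`: `≤ 5(J_s-d-1)+s ≤ 3g+3-k-5d`. -/
def S_S4 : Prop :=
  ∀ (g : ℕ) (l : Fin g → F) (b₁ b₂ : F[X]), 1 ≤ rr g l → Val g l (rr g l) (fr b₁) (fr b₂) →
    ∀ (k : ℕ) (w : F[X]), k ≤ 2 * g + 1 → k ≤ 3 * g → w ∈ POL F (3 * g + 1 - k) → (∀ i, i < 2 * g + 1 + k → Lam g l (w * X ^ i) = 0) →
      ∃ α β : F[X], w = b₁ ^ 5 * α + b₂ ^ 5 * β ∧ α ∈ POL F (3 * g + 4 - k - 5 * rr g l) ∧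
        β ∈ POL F (3 * g + 4 - k - 5 * (g + 1 - rr g l))

/-- **S5** (uses B0) the top coefficients.  Put `A = 3g+4-k-5d`, `A' = 3g+4-k-5(g+1-d)`, `c₁ = (coeff d of b₁)⁵`, `c₂ = (coeff g+1-d of b₂)⁵`, not both `0` by `Cop`.  If `A ≥ 1` the coefficient of
`X^(3g+3-k-t) = X^(5d+A-1-t)`, `t < 3`, in `b₁⁵ α` is `c₁ co α A t` (`b₁⁵ = ∑ (b₁)_i⁵ X^(5i)`, `i ≤ d`, and `α_m = 0` for `m ≥ A`; if `t ≥ A` it is `0`), similarly for `b₂⁵ β` if `A' ≥ 1`; and the coefficient of `w` there is `0`.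
(`A' ≤ A` as `2d ≤ g+1`; if `A' = 0`, `β = 0` and `co β A' t = 0`; if `A = 0` both are `0`.) -/
def S_S5 : Prop :=
  ∀ (g d k : ℕ) (b₁ b₂ α β : F[X]), 1 ≤ d → 2 * d ≤ g + 1 → Cop d (g + 1 - d) b₁ b₂ →
    α ∈ POL F (3 * g + 4 - k - 5 * d) → β ∈ POL F (3 * g + 4 - k - 5 * (g + 1 - d)) → b₁ ^ 5 * α + b₂ ^ 5 * β ∈ POL F (3 * g + 1 - k) →
      TP (3 * g + 4 - k - 5 * d) (3 * g + 4 - k - 5 * (g + 1 - d)) α β

/-- **S6** (uses B0) the number `N` of the pairs in `AB A A'` with both members divisible by the monic `m` of degree `i`, `A' ≤ A`.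
Proof: `α = m α₁`, `β = m β₁`, `α₁ ∈ POL (A-i)`, `β₁ ∈ POL (A'-i)` (if `i ≥ A'` then `β = 0`, so `A = A'` and `α ≠ 0` is impossible too: `N = 0`).  This gives `N ≤ q^(A-i) q^(A'-i)`.  As `m` is monic,
`co α A t = ∑_{s ≤ t} m_{i-s} co α₁ (A-i) (t-s)` and the same for `β`, so the relation `c₁ co α + c₂ co β = 0` (`t < 3`) is equivalent to the one for `α₁, β₁`.  Let `A - i ≥ 3`.  The relations are, up to
scalars, `(1, c)`, `c ∈ F`, for which the three top coefficients of `α₁` are determined by `β₁`: `≤ q^(A-i-3) q^(A'-i)` pairs each, and `(0, 1)`: the three top coefficients of `β₁` vanish: `≤ q^(A-i) q^(A'-i-3)` pairs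
(if `A'-i < 3` then `β₁ = 0`, excluded unless `A = A'`, when `A'-i ≥ 3`).  So `N ≤ (q+1) q^(A+A'-2i-3) ≤ 2 q^(A+A'-2i-2)`. -/
def S_S6 : Prop :=
  ∀ (A A' i : ℕ) (m : F[X]), A' ≤ A → m ∈ MON F i →
    (i + 3 ≤ A → ((AB F A A').filter (fun p => m ∣ p.1 ∧ m ∣ p.2)).card * Fintype.card F ^ (2 * i + 2) ≤ 2 * Fintype.card F ^ (A + A')) ∧
    ((AB F A A').filter (fun p => m ∣ p.1 ∧ m ∣ p.2)).card * Fintype.card F ^ (2 * i) ≤ Fintype.card F ^ (A + A') ∧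
    (A ≤ i → ((AB F A A').filter (fun p => m ∣ p.1 ∧ m ∣ p.2)).card = 0)

/-- **S7** (uses B0, Q, S6; compare `D5.R1`) `∑_{b squarefree of degree j} ∑_{(α,β) ∈ AB A A'} #PR ≤ 5 q^(g+4+A+A')`, and `≤ 5 q^(g+2+A+A')` if `A ≥ 4`.
Proof: by Q, `#PR ≤ ∑_{m monic, m ∣ b, α, β} q^(g+3+deg m-j)`.  For `deg m = i` (`i ≤ j`, `i < A`): `q^i` polynomials `m`, `≤ q^(j+1-i)` polynomials `b`, S6: the contribution is at most
`2 q^(g+2+A+A'-i)` for `i+3 ≤ A`, and `≤ q^(g+4+A+A'-i)` always; for `i ∈ {A-2, A-1}` and `A ≥ 4` this is `≤ q^(g+6+A'), q^(g+5+A')`, both `≤ q^(g+2+A+A')`. -/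
def S_S7 : Prop :=
  ∀ (g d₁ d₂ j A A' : ℕ), d₁ + d₂ = g + 1 → 1 ≤ d₁ → 1 ≤ d₂ → j ≤ g + 2 → A' ≤ A →
    (∑ b ∈ (DEG F j).filter (fun b => Squarefree b), ∑ p ∈ AB F A A', ((PR d₁ d₂ b p.1 p.2).card : ℝ) ≤ 5 * qq F ^ (g + 4 + A + A')) ∧
    (4 ≤ A → ∑ b ∈ (DEG F j).filter (fun b => Squarefree b), ∑ p ∈ AB F A A', ((PR d₁ d₂ b p.1 p.2).card : ℝ) ≤ 5 * qq F ^ (g + 2 + A + A'))

/-- **S8** (uses B0, FR, E4, P0, P1) for `l ≠ 0`, `2 rr ≤ g`, the first member of a valid pair is unique up to scalars; and `bb g l` is a valid pair (`2 rr ≤ g + 1`, `l ≠ 0`).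
Proof: `bb g l` is valid by P0 and FR (surjectivity of `fr`), its members have degrees `≤ g+1`.  Let `B₁' = fr p.1`, `d = rr g l ≥ 1`: it is in `HK g l (d+1) (g-d)`, so by P1 (`J = d+1`, `K = g-d`)
`B₁' = B₁ α + B₂ β` with `α ∈ POL 1`, `β ∈ POL (2d-g) = {0}` (`2d ≤ g`).  `B₁' ≠ 0` (`Cop`, `d ≥ 1`).  So `B₁' = C c' B₁`, `c' ≠ 0`, `c' = c⁵`, and `fr` injective gives `p.1 = C c (bb g l).1`. -/
def S_S8 : Prop :=
  (∀ (g : ℕ) (l : Fin g → F), l ≠ 0 → bb g l ∈ VP g l ∧ (bb g l).1 ≠ 0 ∧ Cop (rr g l) (g + 1 - rr g l) (bb g l).1 (bb g l).2) ∧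
  (∀ (g : ℕ) (l : Fin g → F), l ≠ 0 → 2 * rr g l ≤ g → ∀ p ∈ VP g l, ∃ c : F, c ≠ 0 ∧ p.1 = C c * (bb g l).1)

/-- **S9** (uses B0, FR, E4, P0b, S8) the number of valid pairs: `q^(g+4) ≤ 2 q^(min (2 rr) g) #VP` for `l ≠ 0`.
Proof: `d = rr g l`, `1 ≤ d`, `2d ≤ g+1` (E4).  If `2d ≤ g`: the pairs `(λ b₁, μ b₂ + b₁ c)`, `λ, μ ∈ F^*`, `c ∈ POL (g+2-2d)`, are valid (P0b (2) and scalars; `fr (C λ b) = C λ⁵ fr b`) and pairwise different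
(`(μ-μ') b₂ = b₁ (c'-c)` with `μ ≠ μ'` makes `b₁` a unit, then `deg b₂ = g+1-d` by `Cop`, but `deg (c'-c) ≤ g+1-2d`): `(q-1)² q^(g+2-2d) ≥ (16/25) q^(g+4-2d)` pairs.
If `2d = g+1`: the pairs `(λ b₁ + μ b₂, ν b₁ + κ b₂)`, `λκ - μν ≠ 0`, are valid (both degrees are `d`, both vanishing conditions are `i < d-1`; `b₁, b₂` are independent) :
`(q²-1)(q²-q) ≥ (24/25)(4/5) q⁴` pairs. -/
def S_S9 : Prop :=
  ∀ (g : ℕ) (l : Fin g → F), l ≠ 0 → qq F ^ (g + 4) ≤ 2 * qq F ^ (min (2 * rr g l) g) * ((VP g l).card : ℝ)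

/-- **S10** (uses B0, FR, E4, P0b, S8, S9) counting the `l`: (1) at most `2 q^(min (2d) g)` have rank `d ≥ 1`; (2) if `2d ≤ g`, `1 ≤ d`, at most `2 q^(2d-h)` have rank `d` and `deg b₁ + h = d`.
Proof: (1) `2d ≥ g+1`: at most `q^g` (all; none if `2d > g+1`).  `2d ≤ g`: `∑_l #VP(l)` counts pairs `(l, (b₁, b₂))`; each `(b₁, b₂) ∈ POL (d+1) × POL (g+2-d)` (`Cop`) occurs for at most `q` forms `l` (P0b (1)), so
`∑_l #VP(l) ≤ q · q^(g+3)`, and S9.  (2) the same; by S8 all valid pairs of such an `l` have `deg b₁ = d - h`, so there are at most `q · q^(d-h+1) q^(g+2-d)` pairs `(l, (b₁, b₂))`. -/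
def S_S10 : Prop :=
  (∀ g d : ℕ, 1 ≤ d → (((Finset.univ : Finset (Fin g → F)).filter (fun l => l ≠ 0 ∧ rr g l = d)).card : ℝ) ≤ 2 * qq F ^ (min (2 * d) g)) ∧
  (∀ g d h : ℕ, 1 ≤ d → 2 * d ≤ g → h ≤ d → (((Finset.univ : Finset (Fin g → F)).filter (fun l => l ≠ 0 ∧ rr g l = d ∧
    (bb g l).1.natDegree + h = d)).card : ℝ) ≤ 2 * qq F ^ (2 * d - h))

/-- **S11** (uses B0, FR, E4, P0b, S4, S5, S7, S8, S9; compare `D5.R2`) for fixed monic `a` of degree `n`, `1 ≤ k`, `1 ≤ d`, `2n+j < g` let `N` be the number of the pairs `(l, b)`, `rr g l = d`, `b` squarefree of degree `j`,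
with `BIG g l (a² b) k`.  Then `N q^(2k) ≤ 13 q^(min (2d) g + g + 3)`, and `≤ 13 q^(min (2d) g + g + 1)` if `2k + 5 ≤ g`.
Proof: `l ≠ 0`, `2d ≤ g+1` (E4).  Let `w = a² b z`, of degree `≤ (g-1) + (2g+1-k) = 3g-k`, `w ≠ 0`.  For EVERY valid pair `(b₁, b₂) ∈ VP g l` S4 gives `w = b₁⁵ α + b₂⁵ β`, `α ∈ POL A`, `β ∈ POL A'`, `A = 3g+4-k-5d`, `A' = 3g+4-k-5(g+1-d)`.
`(α, β) ≠ (0, 0)`; if `2d ≤ g` then `β ≠ 0` (otherwise `w = b₁⁵ α = (bb g l).1⁵ c⁵ α` by S8, against `BIG`), if `2d = g+1` then `A = A'`; and `TP` by S5.  So `(α, β) ∈ AB A A'` and `(b₁, b₂) ∈ PR d (g+1-d) b α β` (`Cop` by FR).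
All `q-1` nonzero scalar multiples of `(α, β)` have the same property.  Each `(b₁, b₂)` is valid for at most `q` forms `l` (P0b (1)).  So with S9
`N · q^(g+4)/(2 q^(min (2d) g)) · (q-1) ≤ ∑_{(l,b)} #VP(l) (q-1) ≤ q ∑_b ∑_{p ∈ AB} #PR ≤ q · 5 q^(g+4+A+A')` (resp. `5 q^(g+2+A+A')` if `A ≥ 4`), `q/(q-1) ≤ 5/4`.
If `AB` is not empty then `A' ≥ 1` or `A = A' ≥ 1`, so `A + A' = g+3-2k`, and `A ≥ (g+3-2k)/2 ≥ 4` if `2k+5 ≤ g`. -/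
def S_S11 : Prop :=
  ∀ (g d n j k : ℕ) (a : F[X]), a ∈ MON F n → 2 * n + j < g → 1 ≤ k → 1 ≤ d →
    ((((Finset.univ : Finset (Fin g → F)) ×ˢ DEG F j).filter (fun p => p.1 ≠ 0 ∧ rr g p.1 = d ∧ Squarefree p.2 ∧
      BIG g p.1 (a ^ 2 * p.2) k)).card : ℝ) * qq F ^ (2 * k) ≤ 13 * qq F ^ (min (2 * d) g + g + 3) ∧
    (2 * k + 5 ≤ g → ((((Finset.univ : Finset (Fin g → F)) ×ˢ DEG F j).filter (fun p => p.1 ≠ 0 ∧ rr g p.1 = d ∧ Squarefree p.2 ∧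
      BIG g p.1 (a ^ 2 * p.2) k)).card : ℝ) * qq F ^ (2 * k) ≤ 13 * qq F ^ (min (2 * d) g + g + 1))

/-- **T0** (uses B0, S10, S11; edit of `D5.T0`) for `g ≥ 45`: the sum of `√KK` over these pairs (some `k`) is at most `13 q^(min (2d) g + (3j+2g)/5 + 3/4)`.
Proof: `N_k` for a given `k ≥ 1`: `≤ X = 2 q^μ q^(j+1)` (S10 (1), `μ = min (2d) g`), and `≤ Y = 13 q^(μ+g+1-(19/10)k)` by S11 (if `2k+5 > g ≥ 45` then `k ≥ 21` and `2 ≤ k/10`).  So `N_k ≤ X^(3/5) Y^(2/5) ≤ (4.3) q^(μ+(3/5)(j+1)+(2/5)(g+1)-(19/25)k)`,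
`√KK = q^(k/2)`, and `∑_{k ≥ 1} q^(-(13/50)k) ≤ 3 q^(-13/50)`; `1 - 13/50 = 37/50 ≤ 3/4`. -/
def S_T0 : Prop :=
  ∀ (g d n j : ℕ) (a : F[X]), 45 ≤ g → a ∈ MON F n → 2 * n + j < g → 1 ≤ d →
    ∑ p ∈ ((Finset.univ : Finset (Fin g → F)) ×ˢ DEG F j).filter (fun p => p.1 ≠ 0 ∧ rr g p.1 = d ∧ Squarefree p.2 ∧
      ∃ k, BIG g p.1 (a ^ 2 * p.2) k), Real.sqrt (KK g p.1 (a ^ 2 * p.2) : ℝ) ≤
      13 * qq F ^ ((min (2 * d) g : ℕ) + (3 * (j : ℝ) + 2 * (g : ℝ)) / 5 + 3 / 4)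

/-- **T1** (uses B0, SQ, E4, T0; edit of `D5.T1`) for `g ≥ 45`: `∑_{l ≠ 0} ∑_{v ≠ 0, deg v < g, BIG} √KK ≤ 100 q^(2g+3/20)`.
Proof: every `v` is `a² b` (SQ), `deg a = n`, `deg b = j`, `2n+j < g`; `∑_{j ≤ g-1-2n} q^(3j/5) ≤ 1.62 q^(3(g-1-2n)/5)` (`1/(1-5^(-3/5)) ≤ 1.62`), `∑_n q^n q^(-6n/5) ≤ 3.64` (`1/(1-5^(-1/5)) ≤ 3.64`),
`∑_{1 ≤ d, 2d ≤ g+1} q^(min (2d) g) ≤ 1.25 q^g`; total `≤ 13 · 1.62 · 3.64 · 1.25 q^(g + 3(g-1)/5 + 2g/5 + 3/4) ≤ 96 q^(2g+3/20)`. -/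
def S_T1 : Prop :=
  ∀ g : ℕ, 45 ≤ g → ∑ l ∈ (Finset.univ : Finset (Fin g → F)).filter (fun l => l ≠ 0),
    ∑ v ∈ (POL F g).filter (fun v => v ≠ 0 ∧ ∃ k, BIG g l v k), Real.sqrt (KK g l v : ℝ) ≤ 100 * qq F ^ (2 * (g : ℝ) + 3 / 20)

/-- **L1** (uses B0, S8; edit of `D5.L1`) if `l ≠ 0`, `v ≠ 0`, `deg v < g`, `LOW g l v k` then for `b₁ = (bb g l).1`, `d = rr g l`: `b₁ ≠ 0`, `deg b₁ ≤ d`, `deg v + 5 d ≤ g + 2 + 5 deg b₁`, and there is a monic `δ` with `δ ∣ b₁⁵`, `δ ∣ v`,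
`k + 5 deg b₁ ≤ 2g+1+deg δ`.
Proof: `b₁ ≠ 0`, `deg b₁ ≤ d` by S8.  `v z = b₁⁵ α`, `deg v + 2g+1-k = 5 deg b₁ + deg α` and `deg α ≤ 3g+3-k-5d` give the third claim.  Let `δ` be the monic gcd of `b₁⁵` and `v`: `v/δ ∣ α`, so `deg α ≥ deg v - deg δ` and
`k = 2g+1 + deg v - 5 deg b₁ - deg α ≤ 2g+1 - 5 deg b₁ + deg δ`. -/
def S_L1 : Prop :=
  ∀ (g : ℕ) (l : Fin g → F) (v : F[X]) (k : ℕ), l ≠ 0 → v ≠ 0 → v ∈ POL F g → LOW g l v k →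
    (bb g l).1 ≠ 0 ∧ (bb g l).1.natDegree ≤ rr g l ∧ v.natDegree + 5 * rr g l ≤ g + 2 + 5 * (bb g l).1.natDegree ∧
      ∃ δ : F[X], δ.Monic ∧ δ ∣ (bb g l).1 ^ 5 ∧ δ ∣ v ∧ k + 5 * (bb g l).1.natDegree ≤ 2 * g + 1 + δ.natDegree

/-- **DV** (uses B0) for `b ≠ 0`: `∑_{δ monic, δ ∣ b⁵} q^(-deg δ/2) ≤ 2^(deg b)`.
Proof: the sum is multiplicative over coprime factors (or: every monic divisor of `(P^e b')⁵`, `P ∤ b'`, is `P^i δ'`, `i ≤ 5e`, `δ' ∣ b'⁵`; induction, e.g. `UniqueFactorizationMonoid.induction_on_coprime`), and for `P^e`, `e ≥ 1`, it is at most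
`∑_i |P|^(-i/2) ≤ 1/(1 - 5^(-1/2)) ≤ 2 ≤ 2^(e deg P)`; for a unit it is `1`. -/
def S_DV : Prop :=
  ∀ b : F[X], b ≠ 0 → ∑ i ∈ Finset.range (5 * b.natDegree + 1),
    (((MON F i).filter (fun δ => δ ∣ b ^ 5)).card : ℝ) * qq F ^ (-(i : ℝ) / 2) ≤ 2 ^ b.natDegree

/-- **L2** (uses B0, DV, L1; compare `D5.L2`) for `l ≠ 0`, `d = rr g l`, `deg b₁ + h = d`:
`∑_{v ≠ 0, deg v < g, LOW} √KK ≤ 2^d q^(2g+1/2-5d/2)` if `h = 0`, and `≤ 2^d q^(2g+7/2-5d/2-5h/2)` if `h ≥ 1`.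
Proof: `√KK = q^(k/2) ≤ ∑_{δ monic, δ ∣ b₁⁵, δ ∣ v} q^((2g+1-5(d-h)+deg δ)/2)` (L1).  The `v` are in `POL g` (`h = 0`) resp. have `deg v ≤ g+2-5h` (L1), and at most `q^(g-deg δ)` resp. `q^(g+3-5h-deg δ)` of them, nonzero, are divisible by `δ`.
So the sum is `≤ q^(g+1/2-5(d-h)/2) q^g ∑_δ q^(-deg δ/2)` resp. with `q^(g+3-5h)`; DV, and `deg b₁ ≤ d`. -/
def S_L2 : Prop :=
  ∀ (g h : ℕ) (l : Fin g → F), l ≠ 0 → (bb g l).1.natDegree + h = rr g l →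
    (h = 0 → ∑ v ∈ (POL F g).filter (fun v => v ≠ 0 ∧ ∃ k, LOW g l v k), Real.sqrt (KK g l v : ℝ) ≤
      2 ^ (rr g l) * qq F ^ (2 * (g : ℝ) + 1 / 2 - 5 / 2 * (rr g l : ℝ))) ∧
    (1 ≤ h → ∑ v ∈ (POL F g).filter (fun v => v ≠ 0 ∧ ∃ k, LOW g l v k), Real.sqrt (KK g l v : ℝ) ≤
      2 ^ (rr g l) * qq F ^ (2 * (g : ℝ) + 7 / 2 - 5 / 2 * (rr g l : ℝ) - 5 / 2 * (h : ℝ)))

/-- **L3** (uses B0, E4, S8, S10, L2) `∑_{l ≠ 0} ∑_{v ≠ 0, deg v < g, LOW} √KK ≤ 60 q^(2g)`.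
Proof: group by `d = rr g l ≥ 1` (E4; `2d ≤ g`, otherwise `LOW` is empty) and `h`, `deg b₁ + h = d` (S8: `deg b₁ ≤ d`); S10 (2) and L2: at most
`∑_d 2^d q^(2g+1/2-5d/2) 2 q^(2d) (1 + ∑_{h ≥ 1} q^(3-7h/2)) ≤ 2.9 q^(2g+1/2) ∑_{d ≥ 1} (2/√q)^d ≤ 5.8 q^(2g)/(1-2/√5) ≤ 55 q^(2g)` (`∑_{h≥1} q^(3-7h/2) ≤ 0.45`; `2/√5 ≤ 0.8945`). -/
def S_L3 : Prop :=
  ∀ g : ℕ, ∑ l ∈ (Finset.univ : Finset (Fin g → F)).filter (fun l => l ≠ 0),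
    ∑ v ∈ (POL F g).filter (fun v => v ≠ 0 ∧ ∃ k, LOW g l v k), Real.sqrt (KK g l v : ℝ) ≤ 60 * qq F ^ (2 * g)

/-- **T2** (uses B0, S3, T1, L3; edit of `D5.T2`) for `g ≥ 45`: `∑_{v ≠ 0} ∑_{l ≠ 0} √K1 ≤ 161 q^(2g+3/20)`.
Proof: for `l ≠ 0`, `v ≠ 0`: if not `EX`, `K1 = 0`.  Otherwise `K1 = KK` and by S3 `KK = 1` (at most `q^(2g)` pairs) or `GE g l v k z`, and then `BIG g l v k` or `LOW g l v k` (by definition, with this `z`): T1, L3. -/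
def S_T2 : Prop :=
  ∀ g : ℕ, 45 ≤ g → ∑ v ∈ (POL F g).filter (fun v => v ≠ 0),
    ∑ l ∈ (Finset.univ : Finset (Fin g → F)).filter (fun l => l ≠ 0), Real.sqrt (K1 g l v : ℝ) ≤ 161 * qq F ^ (2 * (g : ℝ) + 3 / 20)

/-- **E9** (uses B0, B1, S2, T2; edit of `D5.E9`) for `g ≥ 45`: `|∑_{f ∈ MON (2g+1)} (#sol f - 1) - q^(2g+1)| ≤ 162 q^(2g+13/20)`.
Proof: `#sol f - 1` is the number of the solutions `v ≠ 0`, all of degree `< g` (B1 (4), (5)); exchange the sums: `∑_{v ≠ 0, v ∈ POL g} #{f : IsSol f v}`, S2 divided by `q^g`: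
`|… - (q^g - 1) q^(g+1)| ≤ q^(-g) q^(g+1/2) ∑_v ∑_l √K1 ≤ 161 q^(2g+13/20)` and `q^(g+1) ≤ q^(2g)`. -/
def S_E9 : Prop :=
  ∀ g : ℕ, 45 ≤ g → |∑ f ∈ MON F (2 * g + 1), (((sol f).card : ℝ) - 1) - qq F ^ (2 * g + 1)| ≤ 162 * qq F ^ (2 * (g : ℝ) + 13 / 20)

/-- **F2** (uses B1; edit of `DH.F2`) for `P` irreducible and `f₁ ≠ 0`: `#sol (P² f₁) ≤ 5 #sol f₁`.
Proof: `u ↦ P u` maps `sol f₁` onto the `v ∈ sol (P² f₁)` divisible by `P` (`(P⁴ f₁² P u)'''' = P⁵ (f₁² u)''''`).  `sol (P² f₁)` is an additive group; the residues mod `P` of its elements satisfy `v⁵ = (P')⁴ f₁² v` in the field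
`F[X]/P` (because `(P⁴ G)'''' ≡ 24 (P')⁴ G = - (P')⁴ G` mod `P`), so there are at most 5 residues; two solutions with the same residue differ by a solution divisible by `P`. -/
def S_F2 : Prop :=
  ∀ P f₁ : F[X], Irreducible P → f₁ ≠ 0 → (sol (P ^ 2 * f₁)).card ≤ 5 * (sol f₁).card

/-- **Y1** (uses B0, F2, E9, D5.E9; compare `Pool.Agent.H461.PP.Y1`) for every `ε > 0` and large `g`: `∑_{f ∈ MON (2g+1), f not squarefree} #sol f ≤ (1300/q + ε) q^(2g+1)`.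
Proof: `S(g') = ∑_{f ∈ MON (2g'+1)} #sol f ≤ 164 q^(2g'+1)` for `g' ≥ 45` (E9: `q^n + q^n + 162 q^n`), and `≤ C q^(2g'+1)` for all `g'` (D5.S_E9, `C` depends on `F`).  A monic `f` which is not squarefree is `P² f₁`, `P` monic irreducible of degree `d`, `1 ≤ d ≤ g`,
`f₁ ∈ MON (2(g-d)+1)`; F2: the sum is at most `∑_{d=1}^g q^d 5 S(g-d) ≤ 820 q^(2g+1) ∑_{d ≥ 1} q^(-d) + 5 C q^(2g+1) ∑_{d > g-45} q^(-d)`, `∑_{d ≥ 1} q^(-d) ≤ 5/(4q)`. -/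
def S_Y1 : Prop :=
  ∀ ε : ℝ, 0 < ε → ∃ g₀ : ℕ, ∀ g ≥ g₀,
    ∑ f ∈ (MON F (2 * g + 1)).filter (fun f => ¬ Squarefree f), ((sol f).card : ℝ) ≤ (1300 / qq F + ε) * qq F ^ (2 * g + 1)

/-- **Z1** (uses B0, B1, A9, F5, E9, Y1) THE AVERAGE: for every `ε > 0` and large `g`: `|∑_{f ∈ SQF (2g+1)} cl5 f - 2 #SQF| ≤ (3000 q^(-7/20) + ε) #SQF`.
Proof: `cl5 f = #sol f` (A9), `#sol f ≥ 1` (`v = 0`).  `∑_{SQF} (#sol f - 1)` lies between `∑_{MON} (#sol f - 1) - ∑_{not squarefree} #sol f` and `∑_{MON} (#sol f - 1)`, so by E9, Y1 it differs from `q^(2g+1)` by at most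
`(162 q^(-7/20) + 1300/q + ε) q^(2g+1)`; `#SQF = (1-1/q) q^(2g+1)` (F5), so from `#SQF` by at most `(162 q^(-7/20) + 1301/q + ε) q^(2g+1) ≤ (1463 q^(-7/20) + ε) (5/4) #SQF`. -/
def S_Z1 : Prop :=
  ∀ ε : ℝ, 0 < ε → ∃ g₀ : ℕ, ∀ g ≥ g₀,
    |∑ f ∈ SQF F (2 * g + 1), (cl5 f : ℝ) - 2 * ((SQF F (2 * g + 1)).card : ℝ)| ≤
      (3000 * qq F ^ (-(7 / 20) : ℝ) + ε) * ((SQF F (2 * g + 1)).card : ℝ)

/-- **Z2** (uses B0, C2, Z1) for every `ε > 0` and large `g`: at least `(3/4 - 3000 q^(-7/20) - ε) #SQF` of the `f ∈ SQF (2g+1)` have class number prime to 5.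
Proof: `cl5 f` is a power of 5 (C2), so `(5 - cl5 f)/4 ≤ 1` if `cl5 f = 1` and `≤ 0` otherwise; sum: `#{cl5 = 1} ≥ (5 #SQF - ∑ cl5)/4 ≥ (3/4 - …) #SQF`; and `cl5 f = 1` iff `5 ∤ cln f` (C2; `cl5 f ≥ 1`). -/
def S_Z2 : Prop :=
  ∀ ε : ℝ, 0 < ε → ∃ g₀ : ℕ, ∀ g ≥ g₀,
    (3 / 4 - 3000 * qq F ^ (-(7 / 20) : ℝ) - ε) * ((SQF F (2 * g + 1)).card : ℝ) ≤
      (((SQF F (2 * g + 1)).filter (fun f => ¬ 5 ∣ cln f)).card : ℝ)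

end Q5
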